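import Mathlib

/-! Nonvanishing of polynomials with convex coefficients outside the unit disk. -/

namespace Pool.Agent.KS6_49.RP

open Finset

/-- partial sums of the geometric series -/
noncomputable def Y (z : ℂ) (n : ℕ) : ℂ := ∑ k ∈ range n, z ^ k

theorem Y_zero (z : ℂ) : Y z 0 = 0 := by simp [Y]

theorem Y_succ (z : ℂ) (n : ℕ) : Y z (n + 1) = Y z n + z ^ n := by
  rw [Y, sum_range_succ]; rfl

theorem Y_succ' (z : ℂ) (n : ℕ) : Y z (n + 1) = 1 + z * Y z n := by
  rw [Y, sum_range_succ', pow_zero, add_comm, Y, mul_sum]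
  congr 1
  exact sum_congr rfl fun k _ => by ring

theorem abel (a : ℕ → ℝ) (z : ℂ) (n : ℕ) :
    ∑ i ∈ range n, ((a i - a (i + 1) : ℝ) : ℂ) * Y z (i + 1) =
      ∑ k ∈ range n, (a k : ℂ) * z ^ k - (a n : ℂ) * Y z n := by
  induction n with
  | zero => simp [Y_zero]
  | succ n ih =>
    rw [sum_range_succ, ih, sum_range_succ, Y_succ]
    push_cast
    ring

theorem re_Y (z : ℂ) (n : ℕ) :
    2 * (Y z (n + 1)).re - 1 = Complex.normSq (Y z (n + 1)) -
      Complex.normSq z * Complex.normSq (Y z n) := by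
  rw [← Complex.normSq_mul]
  have h : z * Y z n = Y z (n + 1) - 1 := by rw [Y_succ']; ring
  rw [h, Complex.normSq_apply, Complex.normSq_apply]
  simp only [Complex.sub_re, Complex.one_re, Complex.sub_im, Complex.one_im]
  ring

theorem sum_lower (d : ℕ → ℝ) (z : ℂ) (hz : Complex.normSq z < 1) (n : ℕ)
    (hd : ∀ k < n, d (k + 1) ≤ d k) (hdn : 0 ≤ d n) :
    d n * Complex.normSq (Y z (n + 1)) ≤
      ∑ i ∈ range (n + 1), d i * (2 * (Y z (i + 1)).re - 1) := by
  induction n with
  | zero =>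
    rw [zero_add, sum_range_one, zero_add, re_Y, Y_zero, map_zero, mul_zero, sub_zero]
  | succ n ih =>
    have hdn' : 0 ≤ d n := hdn.trans (hd n (Nat.lt_succ_self n))
    have h1 := ih (fun k hk => hd k (hk.trans (Nat.lt_succ_self n))) hdn'
    rw [sum_range_succ, re_Y z (n + 1)]
    have h2 : 0 ≤ Complex.normSq (Y z (n + 1)) := Complex.normSq_nonneg _
    have h3 : 0 ≤ Complex.normSq z := Complex.normSq_nonneg _
    have h4 := hd n (Nat.lt_succ_self n)
    have h5 : d (n + 1) * (Complex.normSq z * Complex.normSq (Y z (n + 1))) ≤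
        d n * Complex.normSq (Y z (n + 1)) := by
      have h6 : d (n + 1) * (Complex.normSq z * Complex.normSq (Y z (n + 1))) ≤
          d (n + 1) * (1 * Complex.normSq (Y z (n + 1))) :=
        mul_le_mul_of_nonneg_left (mul_le_mul_of_nonneg_right hz.le h2) hdn
      have h7 : d (n + 1) * (1 * Complex.normSq (Y z (n + 1))) ≤
          d n * Complex.normSq (Y z (n + 1)) := by
        rw [one_mul]
        exact mul_le_mul_of_nonneg_right h4 h2
      exact h6.trans h7
    linarith

theorem Y_ne_zero (z : ℂ) (hz : Complex.normSq z < 1) (n : ℕ) : Y z (n + 1) ≠ 0 := by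
  have hz1 : ‖z‖ < 1 := by
    rw [Complex.normSq_eq_norm_sq] at hz
    have := norm_nonneg z
    nlinarith
  intro h
  have h1 : (1 - z) * Y z (n + 1) = 1 - z ^ (n + 1) := by
    rw [Y, mul_comm]
    exact geom_sum_mul_neg z (n + 1)
  rw [h, mul_zero] at h1
  have h2 : z ^ (n + 1) = 1 := by linear_combination h1
  have h3 : ‖z‖ ^ (n + 1) = 1 := by rw [← norm_pow, h2, norm_one]
  have h4 : ‖z‖ ^ (n + 1) < 1 := pow_lt_one₀ (norm_nonneg z) hz1 (Nat.succ_ne_zero n)
  linarith

/-- Fejer: positivity of the real part. -/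
theorem fejer (a : ℕ → ℝ) (n : ℕ) (z : ℂ) (hz : Complex.normSq z < 1)
    (hd : ∀ k < n, a (k + 1) - a (k + 2) ≤ a k - a (k + 1)) (hn : a (n + 1) = 0) (hpos : 0 < a n) :
    0 < (∑ k ∈ range (n + 1), (a k : ℂ) * z ^ k - (a 0 : ℂ) / 2).re := by
  have h1 := abel a z (n + 1)
  rw [hn, Complex.ofReal_zero, zero_mul, sub_zero] at h1
  have h2 := sum_lower (fun k => a k - a (k + 1)) z hz n hd (by rw [hn]; linarith)
  beta_reduce at h2
  rw [hn, sub_zero] at h2
  have h3 : 0 < a n * Complex.normSq (Y z (n + 1)) :=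
    mul_pos hpos (Complex.normSq_pos.2 (Y_ne_zero z hz n))
  have h4 : ∑ i ∈ range (n + 1), (a i - a (i + 1)) * (2 * (Y z (i + 1)).re - 1) =
      2 * (∑ i ∈ range (n + 1), ((a i - a (i + 1) : ℝ) : ℂ) * Y z (i + 1)).re - a 0 := by
    have h5 : ∑ i ∈ range (n + 1), (a i - a (i + 1)) = a 0 := by
      rw [Finset.sum_range_sub' a (n + 1), hn, sub_zero]
    rw [Complex.re_sum]
    simp only [Complex.re_ofReal_mul]
    rw [mul_sum, ← h5, ← sum_sub_distrib]
    exact sum_congr rfl fun i _ => by ring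
  rw [h4, h1] at h2
  rw [Complex.sub_re]
  have h6 : ((a 0 : ℂ) / 2).re = a 0 / 2 := by
    rw [Complex.div_ofNat_re, Complex.ofReal_re]
  rw [h6]
  linarith

/-- The polynomial `∑_{i < r} b_i q ^ i + h q ^ r` does not vanish outside the closed unit disk if
the sequence `0, b_0, ..., b_{r-1}, 2h` has nondecreasing differences and `b_0 > 0`. -/
theorem nonvanishing (b : ℕ → ℝ) (h : ℝ) (r : ℕ) (hr : 1 ≤ r) (q : ℂ) (hq : 1 < ‖q‖)
    (hb0 : 0 < b 0) (hb1 : 2 ≤ r → b 0 ≤ b 1 - b 0)
    (hb : ∀ i, i + 2 < r → b (i + 1) - b i ≤ b (i + 2) - b (i + 1))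
    (hlast : 2 ≤ r → b (r - 1) - b (r - 2) ≤ 2 * h - b (r - 1))
    (hlast1 : r = 1 → b 0 ≤ 2 * h - b 0) :
    ∑ i ∈ range r, (b i : ℂ) * q ^ i + (h : ℂ) * q ^ r ≠ 0 := by
  intro h0
  set a : ℕ → ℝ := fun k => if k = 0 then 2 * h else if k ≤ r then b (r - k) else 0 with ha
  set z : ℂ := q⁻¹ with hz
  have hq0 : q ≠ 0 := by
    rintro rfl
    rw [norm_zero] at hq
    linarith
  have hz1 : Complex.normSq z < 1 := by
    rw [hz, Complex.normSq_inv, Complex.normSq_eq_norm_sq]
    apply inv_lt_one_of_one_lt₀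
    nlinarith
  have ha0 : a 0 = 2 * h := by rw [ha]; simp
  have hak : ∀ k, 1 ≤ k → k ≤ r → a k = b (r - k) := by
    intro k h1 h2
    rw [ha]
    beta_reduce
    rw [if_neg (by omega), if_pos h2]
  have har : ∀ k, r < k → a k = 0 := by
    intro k h1
    rw [ha]
    beta_reduce
    rw [if_neg (by omega), if_neg (by omega)]
  have hfe := fejer a r z hz1 (by
    intro k hk
    by_cases hk0 : k = 0
    · subst hk0
      rw [ha0, hak 1 le_rfl hr]
      by_cases hr2 : 2 ≤ r
      · rw [hak 2 (by omega) hr2]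
        have := hlast hr2
        linarith
      · have hr1 : r = 1 := by omega
        rw [har 2 (by omega), hr1]
        have := hlast1 hr1
        simpa using this
    · rw [hak k (by omega) (by omega), hak (k + 1) (by omega) (by omega)]
      by_cases hk2 : k + 2 ≤ r
      · rw [hak (k + 2) (by omega) hk2]
        have h1 := hb (r - (k + 2)) (by omega)
        have e1 : r - (k + 2) + 1 = r - (k + 1) := by omega
        have e2 : r - (k + 2) + 2 = r - k := by omega
        rw [e1, e2] at h1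
        linarith
      · rw [har (k + 2) (by omega)]
        have e1 : r - (k + 1) = 0 := by omega
        have e2 : r - k = 1 := by omega
        rw [e1, e2]
        have := hb1 (by omega)
        linarith) (har (r + 1) (by omega)) (by
      rw [hak r hr le_rfl, Nat.sub_self]
      exact hb0)
  have hsum : ∑ k ∈ range (r + 1), (a k : ℂ) * z ^ k - (a 0 : ℂ) / 2 =
      z ^ r * (∑ i ∈ range r, (b i : ℂ) * q ^ i + (h : ℂ) * q ^ r) := by
    rw [sum_range_succ', ← Finset.sum_range_reflect, pow_zero, mul_one, ha0, mul_add, mul_sum]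
    have hzq : z ^ r * q ^ r = 1 := by
      rw [← mul_pow, hz, inv_mul_cancel₀ hq0, one_pow]
    have h1 : ∀ j ∈ range r, (a (r - 1 - j + 1) : ℂ) * z ^ (r - 1 - j + 1) =
        z ^ r * ((b j : ℂ) * q ^ j) := by
      intro j hj
      rw [mem_range] at hj
      rw [hak (r - 1 - j + 1) (by omega) (by omega)]
      have e1 : r - (r - 1 - j + 1) = j := by omega
      have e2 : r = (r - 1 - j + 1) + j := by omega
      rw [e1]
      conv_rhs => rw [e2, pow_add]
      have h2 : z ^ j * q ^ j = 1 := by rw [← mul_pow, hz, inv_mul_cancel₀ hq0, one_pow]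
      have h3 : z ^ (r - 1 - j + 1) * z ^ j * ((b j : ℂ) * q ^ j) =
          (b j : ℂ) * z ^ (r - 1 - j + 1) * (z ^ j * q ^ j) := by ring
      rw [h3, h2, mul_one]
    rw [sum_congr rfl h1]
    have h4 : z ^ r * ((h : ℂ) * q ^ r) = (h : ℂ) * (z ^ r * q ^ r) := by ring
    rw [h4, hzq]
    push_cast
    ring
  rw [hsum, h0, mul_zero, Complex.zero_re] at hfe
  exact lt_irrefl _ hfe

end Pool.Agent.KS6_49.RP
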